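import Pool.Agent.Run7.h529.RankRed

/-!
# Graph isomorphism for graphs of rank five

The coherent closure of a graph is the colouring of the ordered pairs of vertices computed by the
two-dimensional Weisfeiler-Leman method, and its rank is the number of colours. A regular graph
which is neither complete nor empty has rank three if and only if it is strongly regular. We show
that the isomorphism problem for the graphs whose coherent closure is a symmetric association scheme
of rank five is as hard as the isomorphism problem for all graphs. In particular all vertices of
these graphs look alike for the method, and so do all adjacent pairs of one of two kinds.

Idea of the proof. Replace every vertex `{a, b}` of the triangular graph (the line graph of a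
complete graph with vertex set the one of `G`) by the Shrikhande graph if `a` and `b` are adjacent in
`G`, and by the `4 × 4` rook graph if they are not. Both are strongly regular with the parameters
`(16, 6, 2, 2)`, so that the rank is `3 + 3 - 1`; and the isomorphisms of the resulting graphs are
those of the triangular graphs, that is bijections of the vertices of `G`, which respect adjacency.
-/

set_option autoImplicit false

namespace Pool.Agent.Results.MP_128e7d_lc.RankFiveSchemes

open Run7.h529

theorem result : AsHardAsGI fun p => RankFive (gr1 p) ∧ RankFive (gr2 p) := rankFive_hard

end Pool.Agent.Results.MP_128e7d_lc.RankFiveSchemes
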